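import Pool.Agent.W424.FR.Defs

set_option autoImplicit false

namespace Pool.Agent.W668.FR

open H974 H12S Finset H389NS H984P H984N MeasureTheory Filter Topology
open Pool.Agent.W92.DP Pool.Agent.W424.OD Pool.Agent.W424.FR
open Pool.Agent.W462.DPL (ctr near_box box_near dom_box sizes pl_close' idx_le)

/-- the curve at a node -/
theorem pl_node {N k : ℕ} (hk : k < N) (p : ℕ → ℂ) (s : unitInterval)
    (hs : (s : ℝ) * N = k) : pl N p s = p k := by
  rw [pl_seg hk (by rw [hs]) (by rw [hs]; linarith), hs]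
  simp

theorem pv_re (δ : ℝ) (w : Vtx) : (pv δ w + (δ : ℂ) * Complex.I).re = δ * w.1 := by
  simp [pv]

theorem pv_im (δ : ℝ) (w : Vtx) : (pv δ w + (δ : ℂ) * Complex.I).im = δ * (w.2 + 1) := by
  simp [pv]; ring

theorem pv_pos {δ : ℝ} (hδ : 0 < δ) {w : Vtx} {σ : St} (h1 : |w.1 - σ.1.1| ≤ 2)
    (h2 : |w.2 - σ.1.2| ≤ 2) :
    dist (pv δ w + (δ : ℂ) * Complex.I) (pos δ σ) ≤ 9 / 2 * δ := by
  have q1 := ML.qx_le σ.2
  have q2 := ML.qy_le σ.2
  have e1 : |(w.1 : ℝ) - σ.1.1| ≤ 2 := by exact_mod_cast h1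
  have e2 : |(w.2 : ℝ) - σ.1.2| ≤ 2 := by exact_mod_cast h2
  rw [abs_le] at q1 q2 e1 e2
  have k1 : |(pv δ w + (δ : ℂ) * Complex.I).re - (pos δ σ).re| ≤ δ * (9 / 4) := by
    rw [ML.pos_re, pv_re, ← mul_sub, abs_mul, abs_of_pos hδ]
    refine mul_le_mul_of_nonneg_left ?_ hδ.le
    rw [abs_le]
    constructor <;> linarith [q1.1, q1.2, e1.1, e1.2]
  have k2 : |(pv δ w + (δ : ℂ) * Complex.I).im - (pos δ σ).im| ≤ δ * (9 / 4) := by
    rw [ML.pos_im, pv_im, ← mul_sub, abs_mul, abs_of_pos hδ]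
    refine mul_le_mul_of_nonneg_left ?_ hδ.le
    rw [abs_le]
    constructor <;> linarith [q2.1, q2.2, e2.1, e2.2]
  refine (ML.dist_le_of k1 k2).trans ?_
  apply le_of_eq
  ring

/-- a lattice point near `z` is in the box -/
theorem x_in {δ r : ℝ} (hδ : 0 < δ) {z : ℂ} {x : Vtx}
    (h : dist (pv δ x + (δ : ℂ) * Complex.I) z ≤ r + δ) : x ∈ Bd (ctr δ z) (⌈r / δ⌉₊ + 3) := by
  have h1 := (ML.le_dist_re _ z).trans h
  have h2 := (ML.le_dist_im _ z).trans h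
  rw [pv_re] at h1
  rw [pv_im] at h2
  have a1 := Int.floor_le (z.re / δ)
  have a2 := Int.lt_floor_add_one (z.re / δ)
  have b1 := Int.floor_le (z.im / δ)
  have b2 := Int.lt_floor_add_one (z.im / δ)
  have hρ : r / δ ≤ (⌈r / δ⌉₊ : ℝ) := Nat.le_ceil _
  set ρ : ℕ := ⌈r / δ⌉₊ with hρd
  set c1 : ℤ := ⌊z.re / δ⌋ with hc1
  set c2 : ℤ := ⌊z.im / δ⌋ with hc2
  have e1 : δ * (z.re / δ) = z.re := by field_simp
  have e2 : δ * (z.im / δ) = z.im := by field_simp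
  have e3 : δ * (r / δ) = r := by field_simp
  have k1 : |(x.1 : ℝ) - z.re / δ| ≤ r / δ + 1 := by
    have : δ * |(x.1 : ℝ) - z.re / δ| ≤ δ * (r / δ + 1) := by
      have e4 : δ * |(x.1 : ℝ) - z.re / δ| = |δ * (x.1 : ℝ) - z.re| := by
        rw [← e1, ← mul_sub, abs_mul, abs_of_pos hδ, e1]
      rw [e4, mul_add δ (r / δ), e3]
      linarith
    exact le_of_mul_le_mul_left this hδ
  have k2 : |((x.2 : ℝ) + 1) - z.im / δ| ≤ r / δ + 1 := by
    have : δ * |((x.2 : ℝ) + 1) - z.im / δ| ≤ δ * (r / δ + 1) := by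
      have e4 : δ * |((x.2 : ℝ) + 1) - z.im / δ| = |δ * ((x.2 : ℝ) + 1) - z.im| := by
        rw [← e2, ← mul_sub, abs_mul, abs_of_pos hδ, e2]
      rw [e4, mul_add δ (r / δ), e3]
      linarith
    exact le_of_mul_le_mul_left this hδ
  rw [abs_le] at k1 k2
  have g1 : (c1 : ℝ) - (ρ + 3) ≤ x.1 := by linarith [k1.1, k1.2]
  have g2 : (x.1 : ℝ) ≤ c1 + (ρ + 3) := by linarith [k1.1, k1.2]
  have g3 : ((c2 : ℝ) - 1) - (ρ + 3) ≤ x.2 := by linarith [k2.1, k2.2]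
  have g4 : (x.2 : ℝ) ≤ ((c2 : ℝ) - 1) + (ρ + 3) := by linarith [k2.1, k2.2]
  rw [mem_Bd]
  refine ⟨⟨?_, ?_⟩, ?_, ?_⟩
  · show c1 - (ρ + 3 : ℕ) ≤ x.1
    push_cast
    exact_mod_cast g1
  · show x.1 ≤ c1 + (ρ + 3 : ℕ)
    push_cast
    exact_mod_cast g2
  · show (c2 - 1) - (ρ + 3 : ℕ) ≤ x.2
    push_cast
    exact_mod_cast g3
  · show x.2 ≤ (c2 - 1) + (ρ + 3 : ℕ)
    push_cast
    exact_mod_cast g4

/-- a lattice point of the box is near `z` -/
theorem y_out {δ : ℝ} (hδ : 0 < δ) {z : ℂ} {y : Vtx} {k : ℕ} (h : y ∈ Bd (ctr δ z) k) :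
    dist (pv δ y + (δ : ℂ) * Complex.I) z ≤ 2 * δ * k + 2 * δ := by
  rw [mem_Bd] at h
  obtain ⟨⟨h1, h2⟩, h3, h4⟩ := h
  have a1 := Int.floor_le (z.re / δ)
  have a2 := Int.lt_floor_add_one (z.re / δ)
  have b1 := Int.floor_le (z.im / δ)
  have b2 := Int.lt_floor_add_one (z.im / δ)
  set c1 : ℤ := ⌊z.re / δ⌋ with hc1
  set c2 : ℤ := ⌊z.im / δ⌋ with hc2
  have h1' : c1 - k ≤ y.1 := h1
  have h2' : y.1 ≤ c1 + k := h2
  have h3' : (c2 - 1) - k ≤ y.2 := h3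
  have h4' : y.2 ≤ (c2 - 1) + k := h4
  have g1 : (c1 : ℝ) - k ≤ y.1 := by exact_mod_cast h1'
  have g2 : (y.1 : ℝ) ≤ c1 + k := by exact_mod_cast h2'
  have g3 : ((c2 : ℝ) - 1) - k ≤ y.2 := by exact_mod_cast h3'
  have g4 : (y.2 : ℝ) ≤ ((c2 : ℝ) - 1) + k := by exact_mod_cast h4'
  have e1 : δ * (z.re / δ) = z.re := by field_simp
  have e2 : δ * (z.im / δ) = z.im := by field_simp
  have k1 : |(pv δ y + (δ : ℂ) * Complex.I).re - z.re| ≤ δ * (k + 1) := by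
    rw [pv_re]
    have e : δ * (y.1 : ℝ) - z.re = δ * ((y.1 : ℝ) - z.re / δ) := by
      rw [mul_sub, e1]
    rw [e, abs_mul, abs_of_pos hδ]
    refine mul_le_mul_of_nonneg_left ?_ hδ.le
    rw [abs_le]
    constructor <;> linarith
  have k2 : |(pv δ y + (δ : ℂ) * Complex.I).im - z.im| ≤ δ * (k + 1) := by
    rw [pv_im]
    have e : δ * ((y.2 : ℝ) + 1) - z.im = δ * (((y.2 : ℝ) + 1) - z.im / δ) := by
      rw [mul_sub, e2]
    rw [e, abs_mul, abs_of_pos hδ]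
    refine mul_le_mul_of_nonneg_left ?_ hδ.le
    rw [abs_le]
    constructor <;> linarith
  refine (ML.dist_le_of k1 k2).trans ?_
  apply le_of_eq
  ring

theorem t_RD : S_RD := by
  intro hFF hLat R z r d δ ζ hδ hδr hd hζ hball hok F hF hE
  obtain ⟨t, ⟨s, hst, h1⟩, h3, g, g0, g1, hg⟩ := hE
  have hr : 0 < r := hδ.trans_le hδr
  have hd0 : 0 < d := by linarith
  set N : ℕ := (R.dm δ).len F with hN
  have hcur : R.curve δ F = pl N (fun k => pos δ ((R.dm δ).walk F k)) := rfl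
  rw [hcur] at h1 h3
  have hg' : ∀ s : unitInterval, s ≤ t → ∀ u,
      ζ < dist (g u) (pl N (fun k => pos δ ((R.dm δ).walk F k)) s) := by
    intro s hs u
    have := hg s hs u
    rwa [hcur] at this
  rcases Nat.eq_zero_or_pos N with h0 | hNpos
  · exfalso
    rw [h0, pl_apply'] at h1 h3
    simp only [Finset.range_zero, Finset.sum_empty, add_zero] at h1 h3
    linarith
  have hstp : ∀ k < N, dist (pos δ ((R.dm δ).walk F k)) (pos δ ((R.dm δ).walk F (k + 1))) ≤ δ / 2 :=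
    fun k _ => Pool.Agent.W462.DPL.step hδ.le F k
  obtain ⟨m, hmN, ⟨m1, m2⟩, hm⟩ := pl_close' hNpos hstp s
  obtain ⟨j, hjN, ⟨j1, j2⟩, hj⟩ := pl_close' hNpos hstp t
  set f := pl N (fun k => pos δ ((R.dm δ).walk F k)) with hf
  have hne : s ≠ t := by
    intro h
    rw [h] at h1
    linarith
  have hmj : m ≤ j := idx_le hNpos hst hne m1 j2
  -- positions
  have pm : dist (pos δ ((R.dm δ).walk F m)) z ≤ r + δ / 2 := by
    have := dist_triangle_left (pos δ ((R.dm δ).walk F m)) z (f s)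
    linarith
  have pj : d / 2 - δ / 2 < dist (pos δ ((R.dm δ).walk F j)) z := by
    have := dist_triangle (f t) (pos δ ((R.dm δ).walk F j)) z
    linarith
  obtain ⟨s1, _, _, _⟩ := sizes hδ hδr hd
  obtain ⟨b1, b2, b3, b4⟩ := dom_box R hδ (by linarith) hball
  have hk : (⌊d / (8 * δ)⌋₊ : ℝ) ≤ d / (8 * δ) := Nat.floor_le (by positivity)
  have h6 : 2 * δ * (⌊d / (8 * δ)⌋₊ : ℝ) ≤ d / 4 := by
    calc 2 * δ * (⌊d / (8 * δ)⌋₊ : ℝ) ≤ 2 * δ * (d / (8 * δ)) :=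
          mul_le_mul_of_nonneg_left hk (by positivity)
      _ = d / 4 := by
          field_simp
          norm_num
  -- the lattice path
  obtain ⟨hl1, hl2⟩ := hLat δ hδ
  let g' : C(unitInterval, ℂ) := ⟨fun u => g u - (δ : ℂ) * Complex.I, by fun_prop⟩
  have hg'a : ∀ u, g' u = g u - (δ : ℂ) * Complex.I := fun u => rfl
  have hshift : ∀ (w : Vtx) (u : unitInterval),
      dist (pv δ w + (δ : ℂ) * Complex.I) (g u) = dist (pv δ w) (g' u) := by
    intro w u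
    rw [hg'a, Complex.dist_eq, Complex.dist_eq]
    congr 1
    ring
  have hreach := hl2 (Nr (R.dm δ) F 0 j) g' (by
    intro u w hw hin
    obtain ⟨q, _, hqj, hq1, hq2⟩ := hin
    have hN' : (0 : ℝ) < N := by exact_mod_cast hNpos
    have hqN : q < N := lt_of_le_of_lt hqj hjN
    have hq0 : (0 : ℝ) ≤ (q : ℝ) / N := by positivity
    have hq1' : (q : ℝ) / N ≤ 1 := by
      rw [div_le_one hN']
      exact_mod_cast hqN.le
    let τ : unitInterval := ⟨(q : ℝ) / N, hq0, hq1'⟩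
    have hτ : (τ : ℝ) * N = q := by
      show (q : ℝ) / N * N = q
      field_simp
    have hτt : τ ≤ t := by
      have : (τ : ℝ) * N ≤ (t : ℝ) * N := by
        rw [hτ]
        have : (q : ℝ) ≤ j := by exact_mod_cast hqj
        linarith
      have h10 : (τ : ℝ) ≤ (t : ℝ) := le_of_mul_le_mul_right this hN'
      exact h10
    have hnode : f τ = pos δ ((R.dm δ).walk F q) := pl_node hqN _ τ hτ
    have h7 := hg' τ hτt u
    rw [hnode] at h7
    have h8 := pv_pos hδ hq1 hq2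
    have h9 := dist_triangle_left (g u) (pos δ ((R.dm δ).walk F q))
      (pv δ w + (δ : ℂ) * Complex.I)
    rw [hshift w u] at h9
    linarith)
  have hx := hl1 (g' 0)
  have hy := hl1 (g' 1)
  rw [← hshift] at hx hy
  refine hFF (R.dm δ) F hok hF (ctr δ z) (⌈r / δ⌉₊ + 3) ⌊d / (8 * δ)⌋₊ s1 b1 b2 b3 b4 0 m j
    (Nat.zero_le _) hmj hjN.le ?_ (near_box hδ pm) ?_ _ _ ?_ ?_ hreach
  · intro hin
    rw [mem_Bd] at hin
    have h7 : (R.dm δ).h ≤ (ctr δ z).2 + (⌊d / (8 * δ)⌋₊ : ℕ) := hin.2.2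
    omega
  · intro hin
    have h5 := box_near hδ hin
    linarith
  · apply x_in hδ
    have := dist_triangle (pv δ (rd δ (g' 0)) + (δ : ℂ) * Complex.I) (g 0) z
    linarith
  · intro hin
    have h5 := y_out hδ hin
    have := dist_triangle_left (g 1) z (pv δ (rd δ (g' 1)) + (δ : ℂ) * Complex.I)
    linarith

end Pool.Agent.W668.FR
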